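import Pool.Agent.Helper32.LU.Main

/-!
# Ring isomorphisms of Leavitt path algebras and isomorphisms of algebras

`IsLPA K s r v e g`: the `K`-algebra `A` is the Leavitt path algebra of the graph with the source
map `s` and the range map `r`, with the vertices `v p`, the edges `e x` and the ghost edges `g x`.
-/

set_option autoImplicit false

universe k a b a' b' w

namespace Pool.Agent.Results.MP_329fe2_al.AlgebraIsomorphism

open Pool.Agent.Helper32.LU

/-- Let `K` be a field and `θ` a ring isomorphism between the Leavitt path algebras over `K` of two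
arbitrary graphs. Then there is an isomorphism `f` of `K`-algebras which agrees with `θ` on the
vertices, the edges and the ghost edges. If `θ` preserves the involutions which belong to an
involution of `K`, then `f` preserves them too. -/
theorem result {K : Type k} [Field K] {V : Type a} {E : Type b} {V' : Type a'} {E' : Type b'}
    (s r : E → V) (s' r' : E' → V')
    {A : Type w} [NonUnitalRing A] [Module K A] [IsScalarTower K A A] [SMulCommClass K A A]
    {v : V → A} {e g : E → A} (h : IsLPA K s r v e g)
    {A' : Type w} [NonUnitalRing A'] [Module K A'] [IsScalarTower K A' A'] [SMulCommClass K A' A']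
    {v' : V' → A'} {e' g' : E' → A'} (h' : IsLPA K s' r' v' e' g') (θ : A ≃+* A') :
    ∃ f : A ≃+* A', (∀ (c : K) x, f (c • x) = c • f x) ∧ (∀ p, f (v p) = θ (v p)) ∧
      (∀ x, f (e x) = θ (e x)) ∧ (∀ x, f (g x) = θ (g x)) ∧
      ∀ [StarRing K] (σ : A → A) (σ' : A' → A'), IsInvolution K v e g σ →
        IsInvolution K v' e' g' σ' → (∀ x, θ (σ x) = σ' (θ x)) → ∀ x, f (σ x) = σ' (f x) :=
  alg_iso h h' θ

end Pool.Agent.Results.MP_329fe2_al.AlgebraIsomorphism
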