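import Pool.Agent.Helper32.LU.Main

/-!
# Leavitt path algebras of finite graphs with disjoint cycles

`IsStarLPA K s r v e`: the `*`-algebra `A` is the Leavitt path algebra over `K` of the graph with
the source map `s` and the range map `r`. `DisjCycles s r`: two cycles with a common vertex have the
same edges. These are the finite graphs whose Leavitt path algebra has polynomial growth.
-/

set_option autoImplicit false

universe k a b w w'

namespace Pool.Agent.Results.MP_329fe2_al.DisjointCycles

open Pool.Agent.Helper32.LU

/-- Two cycles with a common vertex have the same edges. -/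
def DisjCycles {V : Type a} {E : Type b} (s r : E → V) : Prop :=
  ∀ l l', IsCycle s r l → IsCycle s r l' → (∃ x ∈ l, ∃ x' ∈ l', s x = s x') → ∀ x' ∈ l', x' ∈ l

/-- Let `K` be a field with involution and let `A`, `A'` be the Leavitt path algebras over `K` of two
finite graphs whose cycles are pairwise disjoint. If `A` and `A'` are isomorphic as rings then they
are isomorphic as *-algebras over `K`. -/
theorem result {K : Type k} [Field K] [StarRing K] {V V' : Type a} {E E' : Type b} [Finite V]
    [Finite E] [Finite V'] [Finite E'] {s r : E → V} {s' r' : E' → V'}
    (hG : DisjCycles s r) (hG' : DisjCycles s' r')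
    {A : Type w} [NonUnitalRing A] [StarRing A] [Module K A] [StarModule K A]
    [IsScalarTower K A A] [SMulCommClass K A A] {v : V → A} {e : E → A}
    (h : IsStarLPA K s r v e)
    {A' : Type w'} [NonUnitalRing A'] [StarRing A'] [Module K A'] [StarModule K A']
    [IsScalarTower K A' A'] [SMulCommClass K A' A'] {v' : V' → A'} {e' : E' → A'}
    (h' : IsStarLPA K s' r' v' e') (hA : Nonempty (A ≃+* A')) : Nonempty (A ≃⋆ₐ[K] A') :=
  disj hG hG' h h' hA

end Pool.Agent.Results.MP_329fe2_al.DisjointCycles
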